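import Pool.Agent.Helper96.RU.Defs
namespace Pool.Agent.RU.T74
open Matrix Module Pool.Agent.Cube Polynomial Pool.Agent.RU

lemma gm_zero (s : ℕ) : gm 0 s = if Even s then Polynomial.C (((s - 1).doubleFactorial : ℕ) : ℝ) else 0 := rfl
lemma gm_one (s : ℕ) : gm 1 s = (s : Polynomial ℝ) * Polynomial.X * gm 0 (s - 1) := rfl
lemma gm_two (r s : ℕ) : gm (r+2) s = ((r + 1 : ℕ) : Polynomial ℝ) * gm r s +
      (s : Polynomial ℝ) * Polynomial.X * gm (r + 1) (s - 1) := rfl

lemma gm_coeff_nonneg : ∀ r s k, 0 ≤ (gm r s).coeff k := by
  intro r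
  induction r using Nat.twoStepInduction with
  | zero =>
    intro s k
    rw [gm_zero]
    split_ifs
    · rw [coeff_C]; split_ifs
      · positivity
      · exact le_rfl
    · simp
  | one =>
    intro s k
    rw [gm_one, gm_zero, mul_assoc]
    rw [coeff_natCast_mul]
    refine mul_nonneg (Nat.cast_nonneg _) ?_
    cases k with
    | zero => rw [coeff_X_mul_zero]
    | succ k =>
      rw [coeff_X_mul]
      split_ifs
      · rw [coeff_C]; split_ifs
        · positivity
        · exact le_rfl
      · simp
  | more r ih1 ih2 =>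
    intro s k
    rw [gm_two, coeff_add, mul_assoc, coeff_natCast_mul, coeff_natCast_mul]
    refine add_nonneg (mul_nonneg (Nat.cast_nonneg _) (ih1 s k)) (mul_nonneg (Nat.cast_nonneg _) ?_)
    cases k with
    | zero => simp
    | succ k => rw [coeff_X_mul]; exact ih2 _ _

lemma gm_coeff_parity : ∀ r s k, (gm r s).coeff k ≠ 0 → Even (r + k) ∧ Even (s + k) := by
  intro r
  induction r using Nat.twoStepInduction with
  | zero =>
    intro s k h
    rw [gm_zero] at h
    split_ifs at h with hs
    · rw [coeff_C] at h
      split_ifs at h with hk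
      · subst hk; exact ⟨by simp, by simpa using hs⟩
      · exact absurd rfl h
    · exact absurd (coeff_zero k) h
  | one =>
    intro s k h
    rw [gm_one, gm_zero, mul_assoc, coeff_natCast_mul] at h
    cases k with
    | zero => rw [coeff_X_mul_zero, mul_zero] at h; exact absurd rfl h
    | succ k =>
      rw [coeff_X_mul] at h
      have hs0 : s ≠ 0 := by rintro rfl; simp at h
      have h2 := right_ne_zero_of_mul h
      split_ifs at h2 with hs
      · rw [coeff_C] at h2
        split_ifs at h2 with hk
        · subst hk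
          refine ⟨by decide, ?_⟩
          obtain ⟨m, hm⟩ := hs
          exact ⟨m + 1, by omega⟩
        · exact absurd rfl h2
      · exact absurd (coeff_zero k) h2
  | more r ih1 ih2 =>
    intro s k h
    rw [gm_two, coeff_add, mul_assoc, coeff_natCast_mul, coeff_natCast_mul] at h
    by_cases h1 : (gm r s).coeff k = 0
    · rw [h1, mul_zero, zero_add] at h
      cases k with
      | zero => simp at h
      | succ k =>
        rw [coeff_X_mul] at h
        have hs0 : s ≠ 0 := by rintro rfl; simp at h
        have := ih2 (s - 1) k (right_ne_zero_of_mul h)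
        obtain ⟨⟨a, ha⟩, ⟨b, hb⟩⟩ := this
        exact ⟨⟨a + 1, by omega⟩, ⟨b + 1, by omega⟩⟩
    · obtain ⟨⟨a, ha⟩, ⟨b, hb⟩⟩ := ih1 s k h1
      exact ⟨⟨a + 1, by omega⟩, ⟨b, hb⟩⟩

lemma gm_eval_one : ∀ r s, (gm r s).eval 1 = if Even (r + s) then (((r + s - 1).doubleFactorial : ℕ) : ℝ) else 0 := by
  intro r
  induction r using Nat.twoStepInduction with
  | zero =>
    intro s
    rw [gm_zero, zero_add]
    split_ifs <;> simp
  | one =>
    intro s
    rw [gm_one, gm_zero]
    cases s with
    | zero => simp
    | succ s =>
      rw [Nat.succ_sub_one]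
      by_cases hs : Even s
      · have : Even (1 + (s + 1)) := by obtain ⟨m, hm⟩ := hs; exact ⟨m + 1, by omega⟩
        rw [if_pos hs, if_pos this]
        simp only [eval_mul, eval_natCast, eval_X, eval_C]
        cases s with
        | zero => simp
        | succ s =>
          rw [show 1 + (s + 1 + 1) - 1 = s + 2 by omega, Nat.doubleFactorial_add_two,
            Nat.succ_sub_one]
          push_cast; ring
      · have : ¬ Even (1 + (s + 1)) := by
          intro h; apply hs; obtain ⟨m, hm⟩ := h; exact ⟨m - 1, by omega⟩
        rw [if_neg hs, if_neg this]; simp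
  | more r ih1 ih2 =>
    intro s
    rw [gm_two]
    simp only [eval_add, eval_mul, eval_natCast, eval_X, ih1, ih2]
    cases s with
    | zero =>
      simp only [Nat.cast_zero, zero_mul, add_zero]
      by_cases hs : Even r
      · have : Even (r + 2) := by obtain ⟨m, hm⟩ := hs; exact ⟨m + 1, by omega⟩
        rw [if_pos hs, if_pos this, show r + 2 - 1 = r + 1 by omega]
        cases r with
        | zero => simp
        | succ r =>
          rw [show r + 1 + 1 = r + 2 by omega, Nat.doubleFactorial_add_two]
          push_cast [show r + 1 - 1 = r by omega]; ring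
      · have : ¬ Even (r + 2) := by
          intro h; apply hs; obtain ⟨m, hm⟩ := h; exact ⟨m - 1, by omega⟩
        rw [if_neg hs, if_neg this]; simp
    | succ s =>
      rw [show r + 1 + (s + 1 - 1) = r + (s + 1) by omega]
      by_cases hs : Even (r + (s + 1))
      · have : Even (r + 2 + (s + 1)) := by obtain ⟨m, hm⟩ := hs; exact ⟨m + 1, by omega⟩
        rw [if_pos hs, if_pos this, show r + 2 + (s + 1) - 1 = (r + s) + 2 by omega,
          Nat.doubleFactorial_add_two, show r + (s + 1) - 1 = r + s by omega]
        push_cast; ring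
      · have : ¬ Even (r + 2 + (s + 1)) := by
          intro h; apply hs; obtain ⟨m, hm⟩ := h; exact ⟨m - 1, by omega⟩
        rw [if_neg hs, if_neg this]; simp

lemma gm_eval_zero : ∀ r s, (gm r s).eval 0 = if Even r ∧ Even s then
    (((r - 1).doubleFactorial : ℕ) : ℝ) * (((s - 1).doubleFactorial : ℕ) : ℝ) else 0 := by
  intro r
  induction r using Nat.twoStepInduction with
  | zero =>
    intro s
    rw [gm_zero]
    by_cases hs : Even s <;> simp [hs]
  | one =>
    intro s
    rw [gm_one]
    simp
  | more r ih1 ih2 =>
    intro s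
    rw [gm_two]
    simp only [eval_add, eval_mul, eval_natCast, eval_X, ih1, mul_zero, zero_mul, add_zero]
    by_cases hr : Even r
    · have h2 : Even (r + 2) := by obtain ⟨m, hm⟩ := hr; exact ⟨m + 1, by omega⟩
      by_cases hs : Even s
      · rw [if_pos ⟨hr, hs⟩, if_pos ⟨h2, hs⟩, show r + 2 - 1 = r + 1 by omega]
        cases r with
        | zero => simp
        | succ r =>
          rw [show r + 1 + 1 = r + 2 by omega, Nat.doubleFactorial_add_two, show r + 1 - 1 = r by omega]
          push_cast; ring
      · rw [if_neg (fun h => hs h.2), if_neg (fun h => hs h.2)]; simp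
    · have h2 : ¬ Even (r + 2) := by
        intro h; apply hr; obtain ⟨m, hm⟩ := h; exact ⟨m - 1, by omega⟩
      rw [if_neg (fun h => hr h.1), if_neg (fun h => h2 h.1)]; simp

end Pool.Agent.RU.T74
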