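import Mathlib

open MeasureTheory Matrix

namespace Pool.Agent.Helper74.UB

/-- The orthogonal group `O(N)` as a group of matrices. -/
abbrev OG (N : ℕ) := Matrix.orthogonalGroup (Fin N) ℝ

instance instCompactOG (N : ℕ) : CompactSpace (OG N) := by
  have h : IsCompact ((Matrix.orthogonalGroup (Fin N) ℝ : Submonoid (Matrix (Fin N) (Fin N) ℝ)) :
      Set (Matrix (Fin N) (Fin N) ℝ)) := by
    have hK : IsCompact (Set.pi Set.univ (fun _ : Fin N => Set.pi Set.univ (fun _ : Fin N => Set.Icc (-1:ℝ) 1))) :=
      isCompact_univ_pi (fun _ => isCompact_univ_pi (fun _ => isCompact_Icc))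
    refine hK.of_isClosed_subset (isClosed_unitary (R := Matrix (Fin N) (Fin N) ℝ)) ?_
    intro U hU i _ j _
    have := entry_norm_bound_of_unitary (𝕜 := ℝ) (U := U) hU i j
    rw [Real.norm_eq_abs, abs_le] at this
    exact this
  exact isCompact_iff_compactSpace.mp h

instance instMeasOG (N : ℕ) : MeasurableSpace (OG N) := borel _
instance instBorelOG (N : ℕ) : BorelSpace (OG N) := ⟨rfl⟩

/-- The invariant probability measure. -/
noncomputable def mu (N : ℕ) : Measure (OG N) := Measure.haarMeasure ⊤

instance (N : ℕ) : (mu N).IsHaarMeasure := by unfold mu; infer_instance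

instance (N : ℕ) : IsProbabilityMeasure (mu N) := by
  constructor
  have := Measure.haarMeasure_self (K₀ := (⊤ : TopologicalSpace.PositiveCompacts (OG N)))
  simpa [mu] using this

instance (N : ℕ) : (mu N).IsMulRightInvariant := by
  constructor
  intro g
  have h := Measure.isMulInvariant_eq_smul_of_compactSpace ((mu N).map (· * g)) (mu N)
  have h1 : (mu N).map (· * g) Set.univ = 1 := by
    rw [Measure.map_apply (measurable_mul_const g) MeasurableSet.univ]; simp
  have h2 : (1 : ENNReal) = (Measure.haarScalarFactor ((mu N).map (· * g)) (mu N) • (mu N)) Set.univ := by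
    rw [← h, h1]
  have h3 : Measure.haarScalarFactor ((mu N).map (· * g)) (mu N) = 1 := by
    simp only [Measure.smul_apply, measure_univ] at h2
    have : ((Measure.haarScalarFactor ((mu N).map (· * g)) (mu N) : NNReal) : ENNReal) = 1 := by
      rw [h2]; simp [ENNReal.smul_def]
    exact_mod_cast this
  rw [h, h3, one_smul]

/-- Expectation over the orthogonal group. -/
noncomputable def Ex {N : ℕ} (f : OG N → ℝ) : ℝ := ∫ Q, f Q ∂(mu N)

variable {N : ℕ}

lemma integrable_of_continuous {f : OG N → ℝ} (hf : Continuous f) : Integrable f (mu N) :=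
  hf.integrable_of_hasCompactSupport (HasCompactSupport.of_compactSpace f)

lemma Ex_add {f g : OG N → ℝ} (hf : Continuous f) (hg : Continuous g) :
    Ex (fun Q => f Q + g Q) = Ex f + Ex g :=
  integral_add (integrable_of_continuous hf) (integrable_of_continuous hg)

lemma Ex_const_mul (c : ℝ) (f : OG N → ℝ) : Ex (fun Q => c * f Q) = c * Ex f :=
  integral_const_mul c f

lemma Ex_sum {ι : Type*} (s : Finset ι) {f : ι → OG N → ℝ} (hf : ∀ i ∈ s, Continuous (f i)) :
    Ex (fun Q => ∑ i ∈ s, f i Q) = ∑ i ∈ s, Ex (f i) :=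
  integral_finsetSum s (fun i hi => integrable_of_continuous (hf i hi))

lemma Ex_const (c : ℝ) : Ex (N := N) (fun _ => c) = c := by
  simp [Ex]

lemma Ex_mono {f g : OG N → ℝ} (hf : Continuous f) (hg : Continuous g) (h : ∀ Q, f Q ≤ g Q) :
    Ex f ≤ Ex g :=
  integral_mono (integrable_of_continuous hf) (integrable_of_continuous hg) h

lemma Ex_mul_left (U : OG N) (f : OG N → ℝ) : Ex (fun Q => f (U * Q)) = Ex f :=
  integral_mul_left_eq_self f U

lemma Ex_mul_right (U : OG N) (f : OG N → ℝ) : Ex (fun Q => f (Q * U)) = Ex f :=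
  integral_mul_right_eq_self f U

/-- some `Q` is at most the mean -/
lemma exists_le_Ex {f : OG N → ℝ} (hf : Continuous f) : ∃ Q, f Q ≤ Ex f := by
  by_contra hcon
  push Not at hcon
  have h1 : Continuous (fun Q => f Q - Ex f) := hf.sub continuous_const
  obtain ⟨Q0, -, hQ0⟩ := isCompact_univ.exists_isMinOn (Set.univ_nonempty) h1.continuousOn
  have h2 : ∀ Q, f Q0 - Ex f ≤ f Q - Ex f := fun Q => hQ0 (Set.mem_univ Q)
  have h3 : f Q0 ≤ Ex f := by
    have : Ex (N := N) (fun _ => f Q0) ≤ Ex f :=
      Ex_mono continuous_const hf (fun Q => by have := h2 Q; linarith)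
    rwa [Ex_const] at this
  exact absurd h3 (not_le.mpr (hcon Q0))

end Pool.Agent.Helper74.UB
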